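import Pool.Agent.R141.DC.Main

/-!
There is a `3`-chordal `3`-closure on ten vertices with a simplicial face whose deletion is not
`3`-chordal.
-/

namespace Pool.Agent.Results.MP_eff1f1_co.NotHereditaryDeletion

open Pool.Agent.R141.DC

theorem result :
    ∃ (Γ : Set (Finset (Fin 10))) (E : Finset (Fin 10)),
      IsClosure 3 Γ ∧ Chordal 3 Γ ∧ E ∈ Simp 3 Γ ∧ ¬ Chordal 3 (del Γ E) := by
  obtain ⟨h1, _, h3⟩ := good_spec top_good
  obtain ⟨g1, _, g3⟩ := good_spec top_good2
  by_cases h : Chordal 3 (Gam (delH top 52))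
  · refine ⟨_, _, gam_closure _, h, g1, ?_⟩
    rw [g3]
    exact stuck_not top_stuck
  · refine ⟨_, _, gam_closure _, run_spec downs top top_run, h1, ?_⟩
    rw [h3]
    exact h

end Pool.Agent.Results.MP_eff1f1_co.NotHereditaryDeletion
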